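import Pool.Agent.H174.GM.Stmts2

/-!
# Project GM (helper174), EH3: residues
-/

set_option autoImplicit false

namespace Pool.Agent.H729.GM174

open Pool.Agent.H174.GM

theorem eh3 : Pool.Agent.H174.GM.S_EH3 := by
  intro k
  refine ⟨fun f g => ?_, fun c f => ?_, fun j f hf => ?_, fun j f hf => ?_⟩
  · unfold res
    rw [HahnSeries.coeff_add]
  · unfold res
    have h : algebraMap ℚ (E k) = (HahnSeries.C : ℚ →+* HahnSeries (Ex k) ℚ) :=
      RingHom.ext_rat _ _
    rw [h, HahnSeries.C_mul_eq_smul, HahnSeries.coeff_smul, smul_eq_mul]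
  · by_contra h
    have h1 := hf _ h
    have h2 : (0 : ℤ) ≤ -1 := h1
    omega
  · by_contra h
    have h1 := hf _ h
    have h2 : (-1 : ℤ) ≤ -2 := h1
    omega

end Pool.Agent.H729.GM174
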