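import Pool.Agent.H174.GM.Stmts2

/-!
# Project GM (helper174), MTOT: the total Magog count as a residue
-/

set_option autoImplicit false

namespace Pool.Agent.H729.GM174

open Finset Pool.Agent.H174.GM

theorem ge_one (h6 : S_XF) {k : ℕ} (l : Fin k) (c : ℚ) : Ge l 0 (algebraMap ℚ (E k) c) :=
  ((h6 k l).2.2.2.2.2.1 c).1

theorem ge_xx (h4 : S_EH1) (h6 : S_XF) {k : ℕ} (l i : Fin k) : Ge l 0 (xx i : E k) := by
  by_cases h : i = l
  · rw [h]
    exact (h4 k l 1 0 (xx l) 0).2.2.2.2.2.2.1 (h6 k l).2.1 (by norm_num)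
  · exact ((h6 k l).2.2.2.1 i h).1

theorem ge_mul (h4 : S_EH1) {k : ℕ} {l : Fin k} {f g : E k} (hf : Ge l 0 f) (hg : Ge l 0 g) :
    Ge l 0 (f * g) := by
  have h := (h4 k l 0 0 f g).1 hf hg
  simpa using h

theorem ge_add (h4 : S_EH1) {k : ℕ} {l : Fin k} {f g : E k} (hf : Ge l 0 f) (hg : Ge l 0 g) :
    Ge l 0 (f + g) := (h4 k l 0 0 f g).2.2.1 hf hg

theorem ge_neg (h4 : S_EH1) {k : ℕ} {l : Fin k} {f : E k} (hf : Ge l 0 f) : Ge l 0 (-f) :=
  (h4 k l 0 0 f 0).2.2.2.2.1 hf

theorem ge_sub (h4 : S_EH1) {k : ℕ} {l : Fin k} {f g : E k} (hf : Ge l 0 f) (hg : Ge l 0 g) :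
    Ge l 0 (f - g) := by
  rw [sub_eq_add_neg]
  exact ge_add h4 hf (ge_neg h4 hg)

theorem ge_db (h4 : S_EH1) (h6 : S_XF) {k : ℕ} (l : Fin k) : Ge l 0 (db (xx (k := k))) := by
  have h1 : Ge l 0 (1 : E k) := by
    have := ge_one h6 l 1
    rwa [map_one] at this
  have h2 : Ge l 0 (2 : E k) := by
    have := ge_one h6 l 2
    rwa [map_ofNat] at this
  unfold db
  refine ge_mul h4 ?_ ?_
  · refine Finset.prod_induction _ (Ge l 0) (fun a b ha hb => ge_mul h4 ha hb) h1 fun i _ => ?_
    exact ge_sub h4 h1 (ge_mul h4 h2 (ge_xx h4 h6 l i))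
  · refine Finset.prod_induction _ (Ge l 0) (fun a b ha hb => ge_mul h4 ha hb) h1 fun p _ => ?_
    exact ge_mul h4 (ge_sub h4 (ge_xx h4 h6 l _) (ge_xx h4 h6 l _))
      (ge_sub h4 (ge_sub h4 h1 (ge_xx h4 h6 l _)) (ge_xx h4 h6 l _))

theorem res_sum (h5 : S_EH3) {k : ℕ} {ι : Type} (s : Finset ι) (f : ι → E k) :
    res (∑ i ∈ s, f i) = ∑ i ∈ s, res (f i) := by
  classical
  induction s using Finset.induction_on with
  | empty =>
    rw [Finset.sum_empty, Finset.sum_empty]
    unfold res
    rw [HahnSeries.coeff_zero]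
  | insert a s ha ih => rw [Finset.sum_insert ha, Finset.sum_insert ha, (h5 k).1, ih]

theorem gap {k : ℕ} {α : Fin k → ℕ} (h : StrictMono α) (d : ℕ) : ∀ i j : Fin k,
    i.1 + d = j.1 → α i + d ≤ α j := by
  induction d with
  | zero =>
    intro i j hij
    have : i = j := Fin.ext (by omega)
    rw [this, add_zero]
  | succ d ih =>
    intro i j hij
    have hj := j.2
    have h1 := ih i ⟨i.1 + d, by omega⟩ rfl
    have h2 : α ⟨i.1 + d, by omega⟩ < α j := h (Fin.lt_def.mpr (by simp only; omega))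
    omega

theorem nm_zero {k : ℕ} (n : ℕ) (a : Fin k → ℕ) (h : ¬ Monotone a) : NM k n a = 0 := by
  classical
  cases n with
  | zero =>
    unfold NM
    refine if_neg fun h0 => h ?_
    rw [h0]
    exact monotone_const
  | succ n =>
    have hadj : ∃ i j : Fin k, i.1 + 1 = j.1 ∧ a j < a i := by
      by_contra hno
      push Not at hno
      apply h
      cases k with
      | zero => exact fun i => i.elim0
      | succ k =>
        rw [Fin.monotone_iff_le_succ]
        intro i
        exact hno i.castSucc i.succ (by simp)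
    obtain ⟨i, j, hij, hlt⟩ := hadj
    unfold NM
    split_ifs
    · refine Finset.sum_eq_zero fun b hb => ?_
      have hs : Step b a := (Finset.mem_filter.mp hb).2
      have h1 := hs.1 i
      have h2 := hs.2 i j hij
      omega
    · rfl

theorem mtot (h1 : S_LIT) (h2 : S_MCNT) (h3 : S_REGN) (h4 : S_EH1) (h5 : S_EH3) (h6 : S_XF) :
    Pool.Agent.H174.GM.S_MTOT := by
  intro k n hk
  set S := (Fintype.piFinset fun _ : Fin k => Finset.range (n + k)).filter
      (fun α => ∀ i j : Fin k, i < j → α i < α j) with hS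
  set L : E k := ∑ α ∈ S, vv α (xx (k := k)) with hL
  set U : E k := (∏ i, uu (xx (k := k) i)) ^ (n + k) with hU
  have hNN : NN (n + k) (gg (xx (k := k)) - L) := by
    intro γ hγ
    exact h1 k k (Function.Embedding.refl (Fin k)) (n + k) γ hγ
  have hreg : res ((gg (xx (k := k)) - L) * db (xx (k := k)) / U) = 0 :=
    h3 k (n + k) _ _ hNN fun l => ge_db h4 h6 l
  have hsplit : db (xx (k := k)) * gg (xx (k := k)) / U =
      (gg (xx (k := k)) - L) * db (xx (k := k)) / U +
        ∑ α ∈ S, db (xx (k := k)) * vv α (xx (k := k)) / U := by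
    rw [← Finset.sum_div, ← Finset.mul_sum, ← hL]
    ring
  rw [hsplit, (h5 k).1, hreg, zero_add, res_sum h5]
  have hterm : ∀ α ∈ S, res (db (xx (k := k)) * vv α (xx (k := k)) / U) =
      (Nat.factorial k : ℚ) * NM k n (fun i => α i - i.1) := by
    intro α hα
    have hmono : StrictMono α := fun i j hij => (Finset.mem_filter.mp hα).2 i j hij
    exact h2 k n α hk hmono
  rw [Finset.sum_congr rfl hterm, ← Finset.mul_sum]
  congr 1
  rw [← Nat.cast_sum]
  congr 1
  unfold magogW
  have hsub : ∑ a ∈ (Fintype.piFinset fun _ : Fin k => Finset.range (n + 1)).filter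
      (fun a => Monotone a), NM k n a =
      ∑ a ∈ Fintype.piFinset fun _ : Fin k => Finset.range (n + 1), NM k n a := by
    rw [Finset.sum_filter]
    refine Finset.sum_congr rfl fun a _ => ?_
    by_cases hm : Monotone a
    · rw [if_pos hm]
    · rw [if_neg hm, nm_zero n a hm]
  rw [← hsub]
  have hlo : ∀ α ∈ S, ∀ i : Fin k, i.1 ≤ α i := by
    intro α hα i
    have hmono : StrictMono α := fun i j hij => (Finset.mem_filter.mp hα).2 i j hij
    have := gap hmono i.1 ⟨0, hk⟩ i (by simp)
    omega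
  refine Finset.sum_nbij' (fun α i => α i - i.1) (fun a i => a i + i.1) ?_ ?_ ?_ ?_ ?_
  · intro α hα
    have hmono : StrictMono α := fun i j hij => (Finset.mem_filter.mp hα).2 i j hij
    have hr := Fintype.mem_piFinset.mp (Finset.mem_filter.mp hα).1
    refine Finset.mem_filter.mpr ⟨Fintype.mem_piFinset.mpr fun i => ?_, ?_⟩
    · rw [Finset.mem_range]
      have h7 := gap hmono (k - 1 - i.1) i ⟨k - 1, by omega⟩ (by simp only; have := i.2; omega)
      have h8 := Finset.mem_range.mp (hr ⟨k - 1, by omega⟩)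
      have h9 := i.2
      omega
    · intro i j hij
      have hij' : i.1 ≤ j.1 := hij
      have h7 := gap hmono (j.1 - i.1) i j (by omega)
      have h8 := hlo α hα i
      show α i - i.1 ≤ α j - j.1
      omega
  · intro a ha
    have hmono : Monotone a := (Finset.mem_filter.mp ha).2
    have hr := Fintype.mem_piFinset.mp (Finset.mem_filter.mp ha).1
    refine Finset.mem_filter.mpr ⟨Fintype.mem_piFinset.mpr fun i => ?_, fun i j hij => ?_⟩
    · rw [Finset.mem_range]
      have h7 := Finset.mem_range.mp (hr i)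
      have h8 := i.2
      omega
    · have h7 := hmono hij.le
      have h8 : i.1 < j.1 := hij
      show a i + i.1 < a j + j.1
      omega
  · intro α hα
    funext i
    have h7 := hlo α hα i
    show α i - i.1 + i.1 = α i
    omega
  · intro a _
    funext i
    show a i + i.1 - i.1 = a i
    omega
  · intro α _
    rfl

end Pool.Agent.H729.GM174
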